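import Pool.Agent.H52.PAG.Defs
import Pool.Agent.H98.FJ.Closed

/-!
# The Artin group is the directed colimit of the Artin groups of the finite sets of generators
-/

set_option autoImplicit false

namespace Pool.Agent.H54.AR

open Pool.Agent.H98.FJ Pool.Agent.H52.PAG

variable {B : Type}

/-- the restriction of a Coxeter matrix to a set -/
def rst (M : CoxeterMatrix B) (S : Finset B) : CoxeterMatrix S where
  M := Matrix.of fun i j => M i.1 j.1
  isSymm := by
    ext i j
    exact M.symmetric j.1 i.1
  diagonal i := M.diagonal i.1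
  off_diagonal i j h := M.off_diagonal i.1 j.1 (fun e => h (Subtype.ext e))

theorem rst_apply (M : CoxeterMatrix B) (S : Finset B) (i j : S) : rst M S i j = M i.1 j.1 := rfl

/-- the inclusion -/
def icl {S T : Finset B} (h : S ≤ T) : S → T := fun x => ⟨x.1, h x.2⟩

theorem map_rel (M : CoxeterMatrix B) {S T : Finset B} (h : S ≤ T) {w : FreeGroup S}
    (hw : w ∈ braidRel (rst M S)) : FreeGroup.map (icl h) w ∈ braidRel (rst M T) := by
  obtain ⟨i, j, h1, rfl⟩ := hw
  refine ⟨icl h i, icl h j, h1, ?_⟩
  rw [map_mul, map_inv, map_alt, map_alt, FreeGroup.map.of, FreeGroup.map.of]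
  rfl

theorem map_nc (M : CoxeterMatrix B) {S T : Finset B} (h : S ≤ T) {w : FreeGroup S}
    (hw : w ∈ Subgroup.normalClosure (braidRel (rst M S))) :
    FreeGroup.map (icl h) w ∈ Subgroup.normalClosure (braidRel (rst M T)) := by
  have h1 : Subgroup.normalClosure (braidRel (rst M S)) ≤
      (Subgroup.normalClosure (braidRel (rst M T))).comap (FreeGroup.map (icl h)) := by
    refine Subgroup.normalClosure_le_normal ?_
    intro w hw
    exact Subgroup.subset_normalClosure (map_rel M h hw)
  exact h1 hw

theorem map_map_icl {S T : Finset B} (h : S ≤ T) (w : FreeGroup S) :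
    FreeGroup.map (Subtype.val : T → B) (FreeGroup.map (icl h) w) =
      FreeGroup.map (Subtype.val : S → B) w := by
  rw [FreeGroup.map.comp]
  rfl

theorem exists_supp [DecidableEq B] (w : FreeGroup B) :
    ∃ (S : Finset B) (v : FreeGroup S), FreeGroup.map (Subtype.val : S → B) v = w := by
  induction w using FreeGroup.induction_on with
  | C1 => exact ⟨∅, 1, map_one _⟩
  | of x => exact ⟨{x}, FreeGroup.of ⟨x, by simp⟩, by rw [FreeGroup.map.of]⟩
  | inv_of x h =>
    obtain ⟨S, v, hv⟩ := h
    exact ⟨S, v⁻¹, by rw [map_inv, hv]⟩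
  | mul x y hx hy =>
    obtain ⟨S, v, hv⟩ := hx
    obtain ⟨T, u, hu⟩ := hy
    refine ⟨S ∪ T, FreeGroup.map (icl Finset.subset_union_left) v *
      FreeGroup.map (icl Finset.subset_union_right) u, ?_⟩
    rw [map_mul, map_map_icl, map_map_icl, hv, hu]

/-- the elements which are consequences of the relations of a finite set of generators -/
def loc [DecidableEq B] (M : CoxeterMatrix B) : Subgroup (FreeGroup B) where
  carrier := {w | ∃ (S : Finset B) (v : FreeGroup S),
    v ∈ Subgroup.normalClosure (braidRel (rst M S)) ∧ FreeGroup.map (Subtype.val : S → B) v = w}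
  one_mem' := ⟨∅, 1, one_mem _, map_one _⟩
  inv_mem' := by
    rintro w ⟨S, v, h1, h2⟩
    exact ⟨S, v⁻¹, inv_mem h1, by rw [map_inv, h2]⟩
  mul_mem' := by
    rintro w w' ⟨S, v, h1, h2⟩ ⟨T, u, h3, h4⟩
    refine ⟨S ∪ T, FreeGroup.map (icl Finset.subset_union_left) v *
      FreeGroup.map (icl Finset.subset_union_right) u, mul_mem (map_nc M _ h1) (map_nc M _ h3), ?_⟩
    rw [map_mul, map_map_icl, map_map_icl, h2, h4]

instance [DecidableEq B] (M : CoxeterMatrix B) : (loc M).Normal where
  conj_mem := by
    rintro w ⟨S, v, h1, h2⟩ g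
    obtain ⟨T, u, hu⟩ := exists_supp g
    refine ⟨S ∪ T, FreeGroup.map (icl Finset.subset_union_right) u *
      FreeGroup.map (icl Finset.subset_union_left) v *
      (FreeGroup.map (icl Finset.subset_union_right) u)⁻¹, ?_, ?_⟩
    · exact Subgroup.normalClosure_normal.conj_mem _ (map_nc M _ h1) _
    · rw [map_mul, map_mul, map_inv, map_map_icl, map_map_icl, h2, hu]

theorem le_loc [DecidableEq B] (M : CoxeterMatrix B) :
    Subgroup.normalClosure (braidRel M) ≤ loc M := by
  refine Subgroup.normalClosure_le_normal ?_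
  rintro w ⟨i, j, h, rfl⟩
  refine ⟨{i, j}, alt (FreeGroup.of ⟨i, by simp⟩) (FreeGroup.of ⟨j, by simp⟩) (M i j) *
    (alt (FreeGroup.of ⟨j, by simp⟩) (FreeGroup.of ⟨i, by simp⟩) (M i j))⁻¹,
    Subgroup.subset_normalClosure ⟨⟨i, by simp⟩, ⟨j, by simp⟩, h, rfl⟩, ?_⟩
  rw [map_mul, map_inv, map_alt, map_alt, FreeGroup.map.of, FreeGroup.map.of]

theorem lift_rst_rel (M : CoxeterMatrix B) (S : Finset B) (i j : S) (h : rst M S i j ≠ 0) :
    alt (gen M i.1) (gen M j.1) (rst M S i j) = alt (gen M j.1) (gen M i.1) (rst M S i j) :=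
  gen_rel (M := M) h

/-- the map to the whole Artin group -/
def toArt (M : CoxeterMatrix B) (S : Finset B) : Art (rst M S) →* Art M :=
  lift (fun i => gen M i.1) (lift_rst_rel M S)

/-- the maps of the system -/
def trans (M : CoxeterMatrix B) (S T : Finset B) (h : S ≤ T) : Art (rst M S) →* Art (rst M T) :=
  lift (fun i => gen (rst M T) (icl h i)) fun i j hij =>
    gen_rel (M := rst M T) (i := icl h i) (j := icl h j) hij

theorem toArt_gen (M : CoxeterMatrix B) (S : Finset B) (i : S) :
    toArt M S (gen (rst M S) i) = gen M i.1 := lift_gen _ _ _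

theorem trans_gen (M : CoxeterMatrix B) (S T : Finset B) (h : S ≤ T) (i : S) :
    trans M S T h (gen (rst M S) i) = gen (rst M T) (icl h i) := lift_gen _ _ _

/-- the projection from the free group -/
def pm {B : Type} (M : CoxeterMatrix B) : FreeGroup B →* Art M := PresentedGroup.mk (braidRel M)

theorem pm_of {B : Type} (M : CoxeterMatrix B) (i : B) : pm M (FreeGroup.of i) = gen M i := rfl

theorem pm_surj {B : Type} (M : CoxeterMatrix B) : Function.Surjective (pm M) :=
  PresentedGroup.mk_surjective _

theorem pm_eq_one {B : Type} (M : CoxeterMatrix B) (w : FreeGroup B) :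
    pm M w = 1 ↔ w ∈ Subgroup.normalClosure (braidRel M) := by
  exact QuotientGroup.eq_one_iff w

theorem toArt_pm (M : CoxeterMatrix B) (S : Finset B) (w : FreeGroup S) :
    toArt M S (pm (rst M S) w) = pm M (FreeGroup.map (Subtype.val : S → B) w) := by
  have h : (toArt M S).comp (pm (rst M S)) = (pm M).comp (FreeGroup.map (Subtype.val : S → B)) := by
    ext i
    show toArt M S (pm _ (FreeGroup.of i)) = pm M (FreeGroup.map _ (FreeGroup.of i))
    rw [FreeGroup.map.of, pm_of, pm_of]
    exact lift_gen _ _ _
  exact DFunLike.congr_fun h w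

theorem trans_pm (M : CoxeterMatrix B) (S T : Finset B) (h : S ≤ T) (w : FreeGroup S) :
    trans M S T h (pm (rst M S) w) = pm (rst M T) (FreeGroup.map (icl h) w) := by
  have h : (trans M S T h).comp (pm (rst M S)) = (pm (rst M T)).comp (FreeGroup.map (icl h)) := by
    ext i
    show trans M S T h (pm _ (FreeGroup.of i)) = pm _ (FreeGroup.map _ (FreeGroup.of i))
    rw [FreeGroup.map.of, pm_of, pm_of]
    exact lift_gen _ _ _
  exact DFunLike.congr_fun h w

/-- the Artin group is the directed colimit -/
theorem isColimit [DecidableEq B] (M : CoxeterMatrix B) : IsColimit (trans M) (toArt M) where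
  nonempty := ⟨∅⟩
  directed S T := ⟨S ∪ T, Finset.subset_union_left, Finset.subset_union_right⟩
  map_id S h x := by
    have : trans M S S h = MonoidHom.id _ := art_ext fun i => lift_gen _ _ _
    rw [this]
    rfl
  map_comp S T U h1 h2 h3 x := by
    have : (trans M T U h2).comp (trans M S T h1) = trans M S U h3 := by
      refine art_ext fun i => ?_
      rw [MonoidHom.comp_apply]
      rw [trans_gen, trans_gen, trans_gen]
      rfl
    exact DFunLike.congr_fun this x
  compat S T h x := by
    have : (toArt M T).comp (trans M S T h) = toArt M S := by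
      refine art_ext fun i => ?_
      rw [MonoidHom.comp_apply]
      rw [trans_gen, toArt_gen, toArt_gen]
      rfl
    exact DFunLike.congr_fun this x
  surj y := by
    obtain ⟨w, rfl⟩ := pm_surj M y
    obtain ⟨S, v, rfl⟩ := exists_supp w
    exact ⟨S, pm _ v, toArt_pm M S v⟩
  ker S x hx := by
    obtain ⟨w, rfl⟩ := pm_surj _ x
    rw [toArt_pm, pm_eq_one] at hx
    obtain ⟨T, v, h1, h2⟩ := le_loc M hx
    refine ⟨S ∪ T, Finset.subset_union_left, ?_⟩
    rw [trans_pm, pm_eq_one]
    have h3 : FreeGroup.map (icl (Finset.subset_union_left : S ≤ S ∪ T)) w =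
        FreeGroup.map (icl (Finset.subset_union_right : T ≤ S ∪ T)) v := by
      apply FreeGroup.map_injective (f := (Subtype.val : ((S ∪ T : Finset B)) → B))
        Subtype.val_injective
      rw [map_map_icl, map_map_icl, h2]
    rw [h3]
    exact map_nc M _ h1

/-- it is enough to consider Artin groups with finitely many generators -/
theorem art_mem_of_finite {C : (G : Type) → [Group G] → Prop} (hC : Inherits C)
    (M : CoxeterMatrix B) (h : ∀ S : Finset B, C (Art (rst M S))) : C (Art M) := by
  classical
  exact hC.colim (Finset B) (fun S => Art (rst M S)) (trans M) (Art M) (toArt M) (isColimit M) h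

end Pool.Agent.H54.AR
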