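import Pool.Agent.H54.AR.TqAct
import Pool.Agent.H59.DE.Lvl
import Pool.Agent.H52.FR.Shq

/-!
# The quotient
-/

set_option autoImplicit false

namespace Pool.Agent.H54.AR

open Pool.Agent.H98.FJ Pool.Agent.H54.CX Pool.Agent.H93.TR Pool.Agent.H54.DD

variable {N W T : Type} [Group N] [MulAction N W] {X : Cpx W} {kd : W → ℕ} {τ : W → T}

theorem isQuo (hT : H59.DE.TC X kd τ) (ha : H59.DE.TAct X kd τ N) :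
    H52.FR.IsQuo X kd τ (tquo hT ha (⊤ : Subgroup N)) (qkd hT ha ⊤) (qτ ha ⊤) (orb ⊤) N where
  surj := orb_surj ⊤
  orb x y := by
    rw [orb_eq_iff]
    exact ⟨fun ⟨n, _, h⟩ => ⟨n⁻¹, inv_smul_eq_iff.2 h.symm⟩,
      fun ⟨n, h⟩ => ⟨n⁻¹, Subgroup.mem_top _, inv_smul_eq_iff.2 h.symm⟩⟩
  edge a b := ⟨fun ⟨x, y, h1, h2, h3⟩ => ⟨x, y, h3, h1, h2⟩, fun ⟨x, y, h3, h1, h2⟩ => ⟨x, y, h1, h2, h3⟩⟩
  tri a b c := ⟨fun ⟨x, y, z, h1, h2, h3, h4⟩ => ⟨x, y, z, h4, h1, h2, h3⟩,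
    fun ⟨x, y, z, h4, h1, h2, h3⟩ => ⟨x, y, z, h1, h2, h3, h4⟩⟩
  kd _ := rfl
  ty _ := rfl

end Pool.Agent.H54.AR
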