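import Pool.Agent.H54.AR.Tq

/-!
# The quotient of a typed complex by a group with the closing property is a typed complex
-/

set_option autoImplicit false

namespace Pool.Agent.H54.AR

open Pool.Agent.H98.FJ Pool.Agent.H54.CX Pool.Agent.H93.TR Pool.Agent.H54.DD

variable {P W T : Type} [Group P] [MulAction P W] {X : Cpx W} {kd : W → ℕ} {τ : W → T}
  {N : Subgroup P} {hT : H59.DE.TC X kd τ} {ha : H59.DE.TAct X kd τ P}

/-- the kind on the orbits -/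
def qkd (hT : H59.DE.TC X kd τ) (ha : H59.DE.TAct X kd τ P) (N : Subgroup P) : Orb N W → ℕ :=
  dsc N kd (fun g x => hT.kd_τ _ _ (ha.type g x))

/-- the type on the orbits -/
def qτ (ha : H59.DE.TAct X kd τ P) (N : Subgroup P) : Orb N W → T := dsc N τ ha.type

theorem orb_τ (ha : H59.DE.TAct X kd τ P) {x y : W} (h : orb N x = orb N y) : τ x = τ y := by
  obtain ⟨n, -, h1⟩ := (orb_eq_iff N _ _).1 h
  rw [← h1, ha.type]

theorem uniq (hT : H59.DE.TC X kd τ) (ha : H59.DE.TAct X kd τ P) {g x y : W} (hg : kd g = 0)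
    (hx : X.Edge g x) (hy : X.Edge g y) (h : orb N x = orb N y) : x = y :=
  hT.inj g x y hg hx hy (orb_τ ha h)

theorem third {a b c : W} (h : X.Tri a b c) : X.Edge a c :=
  X.symm _ _ (X.edge _ _ _ (X.rot _ _ _ (X.rot _ _ _ h)))

theorem mid {a b c : W} (h : X.Tri a b c) : X.Edge b c := X.edge _ _ _ (X.rot _ _ _ h)

/-- triangles lift, with a given first vertex -/
theorem tri_lift1 {a : W} {j k : Orb N W} (h : (tquo hT ha N).Tri (orb N a) j k) :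
    ∃ b c, orb N b = j ∧ orb N c = k ∧ X.Tri a b c := by
  obtain ⟨b, hb, hab⟩ := edge_lift ((tquo hT ha N).edge _ _ _ h)
  rw [← hb] at h
  obtain ⟨c, hc, habc⟩ := tri_lift hab h
  exact ⟨b, c, hb, hc, habc⟩

/-- triangles lift, with given first and third vertices -/
theorem tri_lift13 {g p : W} {e : Orb N W} (hgp : X.Edge g p)
    (h : (tquo hT ha N).Tri (orb N g) e (orb N p)) : ∃ b, orb N b = e ∧ X.Tri g b p := by
  obtain ⟨b, hb, h1⟩ := tri_lift hgp ((tquo hT ha N).swap _ _ _ ((tquo hT ha N).rot _ _ _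
    ((tquo hT ha N).rot _ _ _ h)))
  exact ⟨b, hb, X.rot _ _ _ (X.swap _ _ _ h1)⟩

/-- triangles lift, with given second and third vertices -/
theorem tri_lift23 {e p : W} {g : Orb N W} (hep : X.Edge e p)
    (h : (tquo hT ha N).Tri g (orb N e) (orb N p)) : ∃ c, orb N c = g ∧ X.Tri c e p := by
  obtain ⟨c, hc, h1⟩ := tri_lift hep ((tquo hT ha N).rot _ _ _ h)
  exact ⟨c, hc, X.rot _ _ _ (X.rot _ _ _ h1)⟩

theorem tquo_tc (hcl : H59.DE.CL X kd N) :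
    H59.DE.TC (tquo hT ha N) (qkd hT ha N) (qτ ha N) where
  kd_le i := by
    obtain ⟨x, rfl⟩ := orb_surj N i
    exact hT.kd_le x
  kd_ne := by
    rintro i j ⟨a, b, rfl, rfl, h⟩
    exact hT.kd_ne _ _ h
  kd_τ i j h := by
    obtain ⟨x, rfl⟩ := orb_surj N i
    obtain ⟨y, rfl⟩ := orb_surj N j
    exact hT.kd_τ x y h
  len _ _ _ := rfl
  fill g e p hg he hp h1 h2 := by
    obtain ⟨e, rfl⟩ := orb_surj N e
    obtain ⟨g, rfl, h3⟩ := edge_lift ((tquo hT ha N).symm _ _ h1)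
    obtain ⟨p, rfl, h4⟩ := edge_lift h2
    exact ⟨g, e, p, rfl, rfl, rfl, hT.fill g e p hg he hp (X.symm _ _ h3) h4⟩
  cell e p he hp h := by
    obtain ⟨e, rfl⟩ := orb_surj N e
    obtain ⟨p, rfl, h4⟩ := edge_lift h
    obtain ⟨g, hg, h5⟩ := hT.cell e p he hp h4
    exact ⟨orb N g, hg, g, e, rfl, rfl, h5⟩
  inj g x y hg h1 h2 h := by
    obtain ⟨g, rfl⟩ := orb_surj N g
    obtain ⟨x, rfl, h3⟩ := edge_lift h1
    obtain ⟨y, rfl, h4⟩ := edge_lift h2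
    rw [hT.inj g x y hg h3 h4 h]
  two g p hg hp h := by
    obtain ⟨g, rfl⟩ := orb_surj N g
    obtain ⟨p, rfl, h3⟩ := edge_lift h
    obtain ⟨e, e', hne, he, he', h4, h5, h6⟩ := hT.two g p hg hp h3
    refine ⟨orb N e, orb N e', ?_, he, he', ⟨g, e, p, rfl, rfl, rfl, h4⟩,
      ⟨g, e', p, rfl, rfl, rfl, h5⟩, ?_⟩
    · intro h7
      exact hne (uniq hT ha hg (X.edge _ _ _ h4) (X.edge _ _ _ h5) h7)
    · intro x hx
      obtain ⟨x, rfl, h7⟩ := tri_lift13 h3 hx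
      rcases h6 x h7 with h8 | h8
      · exact Or.inl (by rw [h8])
      · exact Or.inr (by rw [h8])
  pts g e hg he h := by
    obtain ⟨g, rfl⟩ := orb_surj N g
    obtain ⟨e, rfl, h3⟩ := edge_lift h
    obtain ⟨p, q, hne, hp, hq, h4, h5⟩ := hT.pts g e hg he h3
    refine ⟨orb N p, orb N q, ?_, hp, hq, ⟨g, e, p, rfl, rfl, rfl, h4⟩,
      ⟨g, e, q, rfl, rfl, rfl, h5⟩⟩
    intro h7
    exact hne (uniq hT ha hg (third h4) (third h5) h7)
  lg g e e' p q hg he he' hp hq hne h1 h2 h3 h4 := by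
    obtain ⟨g, rfl⟩ := orb_surj N g
    obtain ⟨e1, p1, rfl, rfl, k1⟩ := tri_lift1 h1
    obtain ⟨e2, p2, rfl, hp2, k2⟩ := tri_lift1 h2
    obtain ⟨e3, q3, he3, rfl, k3⟩ := tri_lift1 h3
    obtain ⟨e4, q4, he4, hq4, k4⟩ := tri_lift1 h4
    have a1 := uniq hT ha hg (third k2) (third k1) hp2
    have a2 := uniq hT ha hg (X.edge _ _ _ k3) (X.edge _ _ _ k1) he3
    have a3 := uniq hT ha hg (X.edge _ _ _ k4) (X.edge _ _ _ k2) he4
    have a4 := uniq hT ha hg (third k4) (third k3) hq4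
    subst a1 a2 a3 a4
    rw [hT.lg g _ _ _ _ hg he he' hp hq (fun h => hne (by rw [h])) k1 k2 k3 k4]
  bip p e e' e'' hp he he' he'' h1 h2 h3 := by
    obtain ⟨p, rfl⟩ := orb_surj N p
    obtain ⟨e1, rfl, k1⟩ := edge_lift ((tquo hT ha N).symm _ _ h1)
    obtain ⟨e2, rfl, k2⟩ := edge_lift ((tquo hT ha N).symm _ _ h2)
    obtain ⟨e3, rfl, k3⟩ := edge_lift ((tquo hT ha N).symm _ _ h3)
    exact hT.bip p e1 e2 e3 hp he he' he'' (X.symm _ _ k1) (X.symm _ _ k2) (X.symm _ _ k3)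
  l2 p e e' g g' hp he he' hg hg' hne h1 h2 h3 h4 := by
    obtain ⟨p, rfl⟩ := orb_surj N p
    obtain ⟨g1, e1, rfl, rfl, k1⟩ := tri_lift1 ((tquo hT ha N).rot _ _ _ ((tquo hT ha N).rot _ _ _ h1))
    have k1' : X.Tri g1 e1 p := X.rot _ _ _ k1
    obtain ⟨e2, rfl, k2⟩ := tri_lift13 (third k1') h2
    obtain ⟨g2, rfl, k3⟩ := tri_lift23 (mid k2) h4
    obtain ⟨e3, he3, k4⟩ := tri_lift13 (third k3) h3
    obtain ⟨m', hm', hmm'⟩ := (orb_eq_iff N e3 e1).1 he3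
    obtain ⟨m, hm, hmp, hme⟩ := (simple hT ha N).double p e1 e3 (X.symm _ _ (mid k1'))
      (X.symm _ _ (mid k4)) m' hm' hmm'
    have hmp' : (⟨m, hm⟩ : N) • p = p := hmp
    have k4' : X.Tri g2 ((⟨m, hm⟩ : N) • e1) p := by
      show X.Tri g2 (m • e1) p
      rw [hme]; exact k4
    have hne' : e1 ≠ e2 := fun h => hne (by rw [h])
    rcases hcl.two ⟨m, hm⟩ p e1 e2 g1 g2 hp he he' hg hg' hmp' k1' k2 k3 k4' with h5 | h5
    · have h6 : m • e1 = e1 := h5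
      have h7 : e3 = e1 := by rw [← hme, h6]
      rw [h7] at k4
      rw [hT.l2 p e1 e2 g1 g2 hp he he' hg hg' hne' k1' k2 k4 k3]
    · have h6 : m • e2 = e2 := h5
      have k5 := ha.inv.tri m⁻¹ _ _ _ k4
      rw [← hme, inv_smul_smul, inv_smul_eq_iff.2 hmp.symm] at k5
      have k6 := ha.inv.tri m⁻¹ _ _ _ k3
      rw [inv_smul_eq_iff.2 h6.symm, inv_smul_eq_iff.2 hmp.symm] at k6
      have hk : kd (m⁻¹ • g2) = 0 := by
        rw [hT.kd_τ _ _ (ha.type m⁻¹ g2)]; exact hg'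
      rw [hT.l2 p e1 e2 g1 _ hp he he' hg hk hne' k1' k2 k5 k6, orb_smul N (N.inv_mem hm)]
  l4 p e₁ e₂ e₃ e₄ g₁ g₂ g₃ g₄ hp he₁ he₂ he₃ he₄ hg₁ hg₂ hg₃ hg₄ h1 h2 h3 h4 h5 h6 h7 h8 n1 n2
      n3 n4 := by
    obtain ⟨p, rfl⟩ := orb_surj N p
    obtain ⟨G1, E1, rfl, rfl, k1'⟩ := tri_lift1 ((tquo hT ha N).rot _ _ _ ((tquo hT ha N).rot _ _ _ h1))
    have k1 : X.Tri G1 E1 p := X.rot _ _ _ k1'
    obtain ⟨E2, rfl, k2⟩ := tri_lift13 (third k1) h2
    obtain ⟨G2, rfl, k3⟩ := tri_lift23 (mid k2) h3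
    obtain ⟨E3, rfl, k4⟩ := tri_lift13 (third k3) h4
    obtain ⟨G3, rfl, k5⟩ := tri_lift23 (mid k4) h5
    obtain ⟨E4, rfl, k6⟩ := tri_lift13 (third k5) h6
    obtain ⟨G4, rfl, k7⟩ := tri_lift23 (mid k6) h7
    obtain ⟨E5, he5, k8⟩ := tri_lift13 (third k7) h8
    obtain ⟨m', hm', hmm'⟩ := (orb_eq_iff N E5 E1).1 he5
    obtain ⟨m, hm, hmp, hme⟩ := (simple hT ha N).double p E1 E5 (X.symm _ _ (mid k1))
      (X.symm _ _ (mid k8)) m' hm' hmm'
    have hmp' : (⟨m, hm⟩ : N) • p = p := hmp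
    have k8' : X.Tri G4 (m • E1) p := by rw [hme]; exact k8
    have d1 : E1 ≠ E2 := fun h => n1 (by rw [h])
    have d2 : E2 ≠ E3 := fun h => n2 (by rw [h])
    have d3 : E3 ≠ E4 := fun h => n3 (by rw [h])
    have ho : ∀ x : W, orb N (m • x) = orb N x := fun x => orb_smul N hm x
    have d4 : E4 ≠ m • E1 := fun h => n4 (by rw [h, ho])
    have hk : ∀ x : W, kd (m • x) = kd x := fun x => hT.kd_τ _ _ (ha.type m x)
    have q1 : X.Tri (m • G1) (m • E1) p := by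
      have := ha.inv.tri m _ _ _ k1; rwa [hmp] at this
    have q2 : X.Tri (m • G1) (m • E2) p := by
      have := ha.inv.tri m _ _ _ k2; rwa [hmp] at this
    have q3 : X.Tri (m • G2) (m • E2) p := by
      have := ha.inv.tri m _ _ _ k3; rwa [hmp] at this
    have q4 : X.Tri (m • G2) (m • E3) p := by
      have := ha.inv.tri m _ _ _ k4; rwa [hmp] at this
    have q5 : X.Tri (m • G3) (m • E3) p := by
      have := ha.inv.tri m _ _ _ k5; rwa [hmp] at this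
    have q6 : X.Tri (m • G3) (m • E4) p := by
      have := ha.inv.tri m _ _ _ k6; rwa [hmp] at this
    have e1' : kd (m • E1) = 1 := by rw [hk]; exact he₁
    have e2' : kd (m • E2) = 1 := by rw [hk]; exact he₂
    have e3' : kd (m • E3) = 1 := by rw [hk]; exact he₃
    have g1' : kd (m • G1) = 0 := by rw [hk]; exact hg₁
    have g2' : kd (m • G2) = 0 := by rw [hk]; exact hg₂
    have g3' : kd (m • G3) = 0 := by rw [hk]; exact hg₃
    have c1 : m • E1 ≠ m • E2 := fun h => d1 (smul_left_cancel _ h)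
    have c2 : m • E2 ≠ m • E3 := fun h => d2 (smul_left_cancel _ h)
    have c3 : m • E3 ≠ m • E4 := fun h => d3 (smul_left_cancel _ h)
    rcases hcl.four ⟨m, hm⟩ p E1 E2 E3 E4 G1 G2 G3 G4 hp he₁ he₂ he₃ he₄ hg₁ hg₂ hg₃ hg₄ hmp' k1 k2
      k3 k4 k5 k6 k7 k8' with h9 | h9 | h9 | h9
    · have h10 : m • E1 = E1 := h9
      rw [h10] at k8' d4
      rcases hT.l4 p E1 E2 E3 E4 G1 G2 G3 G4 hp he₁ he₂ he₃ he₄ hg₁ hg₂ hg₃ hg₄ k1 k2 k3 k4 k5 k6
        k7 k8' d1 d2 d3 d4 with h | h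
      · exact Or.inl (by rw [h])
      · exact Or.inr (by rw [h])
    · have h10 : m • E2 = E2 := h9
      rw [h10] at q2 c1
      rcases hT.l4 p E2 E3 E4 (m • E1) G2 G3 G4 (m • G1) hp he₂ he₃ he₄ e1' hg₂ hg₃ hg₄ g1' k3 k4
        k5 k6 k7 k8' q1 q2 d2 d3 d4 c1 with h | h
      · exact Or.inr (by rw [h])
      · exact Or.inl (by rw [h, ho])
    · have h10 : m • E3 = E3 := h9
      rw [h10] at q4 c2
      rcases hT.l4 p E3 E4 (m • E1) (m • E2) G3 G4 (m • G1) (m • G2) hp he₃ he₄ e1' e2' hg₃ hg₄ g1'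
        g2' k5 k6 k7 k8' q1 q2 q3 q4 d3 d4 c1 c2 with h | h
      · exact Or.inl (by rw [h, ho])
      · exact Or.inr (by rw [h, ho])
    · have h10 : m • E4 = E4 := h9
      rw [h10] at q6 c3
      rcases hT.l4 p E4 (m • E1) (m • E2) (m • E3) G4 (m • G1) (m • G2) (m • G3) hp he₄ e1' e2' e3'
        hg₄ g1' g2' g3' k7 k8' q1 q2 q3 q4 q5 q6 d4 c1 c2 c3 with h | h
      · exact Or.inr (by rw [h, ho])
      · exact Or.inl (by rw [smul_left_cancel _ h])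

end Pool.Agent.H54.AR
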