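import Pool.Agent.H54.AR.Large
import Pool.Agent.H56.DR.Rep

/-!
# Artin groups of large type: the theorem
-/

set_option autoImplicit false

namespace Pool.Agent.H54.AR

open Pool.Agent.H98.FJ Pool.Agent.H54.CX Pool.Agent.H54.DD Pool.Agent.H52.PAG Pool.Agent.H56.DC
  Pool.Agent.H71.DA Pool.Agent.H56.DR

variable {B : Type} {M : CoxeterMatrix B}

theorem exists_dat [Fintype B] [DecidableEq B] (hM : Large M) :
    ∃ F : Finset ℕ, Nonempty (Dat (cosRing F) M) := by
  classical
  let F : Finset ℕ := (Finset.univ : Finset (B × B)).image fun p => M p.1 p.2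
  have hF : ∀ i j, M i j ∈ F := fun i j => Finset.mem_image.2 ⟨(i, j), Finset.mem_univ _, rfl⟩
  refine ⟨F, ⟨⟨(cosRing F).val.toRingHom, Subtype.val_injective,
    fun i j => ⟨2 * Real.cos (Real.pi / (M i j : ℕ)), mem_cosRing (hF i j)⟩,
    fun i => (Fintype.equivFin B i : ℕ), ?_, hM, ?_⟩⟩⟩
  · intro i j h
    exact (Fintype.equivFin B).injective (Fin.ext h)
  · intro i j _ _
    rfl

theorem hasRep [Finite B] (hM : Large M) : HasRep M := by
  classical
  have := Fintype.ofFinite B
  obtain ⟨F, ⟨D⟩⟩ := exists_dat hM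
  refine ⟨B, inferInstance, inferInstance, F, D.rho, ?_⟩
  intro i j hij hm g hg h1 h2
  refine D.ff_closure hij hm ?_ (Prod.ext h1 h2)
  rwa [Pool.Agent.H56.DC.par, Set.image_pair] at hg

end Pool.Agent.H54.AR
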