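import Pool.Agent.H54.AR.Trick
import Pool.Agent.H54.DD.NM
import Pool.Agent.H52.FR.Main

/-!
# The theorem on typed complexes

A group which acts on a simply connected typed complex, with trivial stabilisers of the cells, and which has a
homomorphism to a group in the class which is injective on the stabilisers is in the class.
-/

set_option autoImplicit false

namespace Pool.Agent.H54.AR

open Pool.Agent.H98.FJ Pool.Agent.H54.CX Pool.Agent.H54.CX.CV Pool.Agent.H54.DD

variable {C : (G : Type) → [Group G] → Prop}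

/-- cocompact actions with a homomorphism to the integers which is injective on the stabilisers -/
theorem of_cocompact (hC : Inherits C) (hE : Extension C) (h2 : Cat2 C) {P W T : Type} [Group P]
    [MulAction P W] {X : Cpx W} {kd : W → ℕ} {τ : W → T} (hX : TA P X kd τ)
    (hcc : X.Cocompact P) (h : P →* Multiplicative ℤ) (hh : StabInj W h) : C P := by
  obtain ⟨M, hM, hcl, hfull⟩ := exists_MK 8 hX.act.inv hcc h hh
  have hgen : NM W h M ≤ Subgroup.closure {n : P | n ∈ NM W h M ∧ ∃ v : W, n • v = v} := by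
    refine (Subgroup.closure_le _).2 ?_
    rintro g ⟨⟨v, hv⟩, hd⟩
    exact Subgroup.subset_closure ⟨mem_NM h M hv hd, v, hv⟩
  have hcl' := cl_of hX.act hcl
  have hquo : C (P ⧸ NM W h M) :=
    tquo_mem h2 hX.tc hX.act hX.sc hcc h M hM (fun v g => mem_NM h M) hgen hcl'
  have hN : C (NM W h M) :=
    H52.FR.n_mem hC hE hX.tc hX.sc hX.act (NM W h M) hcl' (full_of hX.tc hX.act hfull) hgen hC.int
      (h.comp (NM W h M).subtype) (fun v g hv hg => Subtype.ext (hh v g.1 hv hg))
  refine trick hC hE h2 hX h hh M hM (NM W h M) ?_ hquo hN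
  rintro v g hv ⟨k, hk⟩
  exact mem_NM h M hv ⟨k, hk⟩

theorem of_int (hC : Inherits C) (hE : Extension C) (h2 : Cat2 C) {P W T : Type} [Group P]
    [MulAction P W] {X : Cpx W} {kd : W → ℕ} {τ : W → T} (hX : TA P X kd τ)
    (hfin : H59.DE.FinCell X kd) (h : P →* Multiplicative ℤ) (hh : StabInj W h) : C P := by
  obtain ⟨x₀⟩ := hX.sc.nonempty
  exact of_gam hC hX x₀ (fun F => of_cocompact hC hE h2 (cov_ta hX _ x₀)
    (cov_cc hX.act.inv _ (sat_finite hfin F.finite_toSet) x₀) _
    (cov_stab hX.act.inv _ x₀ h (fun v _ g h1 h2 => hh v g h1 h2)))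

/-- the preimage of a cyclic subgroup -/
theorem of_zpowers (hC : Inherits C) (hE : Extension C) (h2 : Cat2 C) {G Q W T : Type} [Group G]
    [Group Q] [MulAction G W] {X : Cpx W} {kd : W → ℕ} {τ : W → T} (hX : TA G X kd τ)
    (hfin : H59.DE.FinCell X kd) (f : G →* Q) (hf : StabInj W f) (u : Q) :
    C ((Subgroup.zpowers u).comap f) := by
  let f' : (Subgroup.zpowers u).comap f →* Subgroup.zpowers u :=
    { toFun := fun x => ⟨f x.1, x.2⟩
      map_one' := Subtype.ext (map_one f)
      map_mul' := fun x y => Subtype.ext (map_mul f x.1 y.1) }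
  have hf' : ∀ x, f' x = 1 → f x.1 = 1 := fun x hx => congrArg Subtype.val hx
  by_cases hu : IsOfFinOrder u
  · have hfin : Finite (Subgroup.zpowers u) := (finite_zpowers.2 hu).to_subtype
    refine of_proper hC h2 (hX.sub _) ?_
    intro v
    refine Finite.of_injective (fun x => f' x.1) ?_
    intro x y hxy
    have h3 : f' (x.1 * y.1⁻¹) = 1 := by
      rw [map_mul, map_inv]
      exact mul_inv_eq_one.2 hxy
    have h4 : (x * y⁻¹).1.1 = 1 := hf v _ (x * y⁻¹).2 (hf' _ h3)
    have h5 : x * y⁻¹ = 1 := Subtype.ext (Subtype.ext h4)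
    exact mul_inv_eq_one.1 h5
  · have hinj : Function.Injective (zpowersHom Q u) := by
      intro a b hab
      have h3 := injective_zpow_iff_not_isOfFinOrder.2 hu hab
      exact h3
    have hr : ∀ q, q ∈ Subgroup.zpowers u → q ∈ (zpowersHom Q u).range := by
      intro q hq
      obtain ⟨n, rfl⟩ := Subgroup.mem_zpowers_iff.1 hq
      exact ⟨Multiplicative.ofAdd n, rfl⟩
    let e := MonoidHom.ofInjective hinj
    let h : (Subgroup.zpowers u).comap f →* Multiplicative ℤ :=
      e.symm.toMonoidHom.comp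
        { toFun := fun x => ⟨f x.1, hr _ x.2⟩
          map_one' := Subtype.ext (map_one f)
          map_mul' := fun x y => Subtype.ext (map_mul f x.1 y.1) }
    refine of_int hC hE h2 (hX.sub _) hfin h ?_
    intro v x hx hx1
    have h3 : (⟨f x.1, hr _ x.2⟩ : (zpowersHom Q u).range) = 1 :=
      (MulEquiv.map_eq_one_iff e.symm).1 hx1
    exact Subtype.ext (hf v _ hx (congrArg Subtype.val h3))

/-- **Theorem.** Actions on typed complexes. -/
theorem tc_main (hC : Inherits C) (hE : Extension C) (h2 : Cat2 C) {G Q W T : Type} [Group G]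
    [Group Q] [MulAction G W] {X : Cpx W} {kd : W → ℕ} {τ : W → T} (hT : H59.DE.TC X kd τ)
    (hsc : X.SC) (ha : H59.DE.TAct X kd τ G) (hfin : H59.DE.FinCell X kd) (hQ : C Q) (f : G →* Q)
    (hf : StabInj W f) : C G :=
  ext_zpowers hC hE f hQ (fun u => of_zpowers hC hE h2 ⟨hT, hsc, ha⟩ hfin f hf u)

end Pool.Agent.H54.AR
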