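import Pool.Agent.H54.AR.Col

/-!
# The choice of the exponent for typed complexes
-/

set_option autoImplicit false

namespace Pool.Agent.H54.AR

open Pool.Agent.H98.FJ Pool.Agent.H54.CX Pool.Agent.H54.DD

variable {P W T : Type} [Group P] [MulAction P W] {X : Cpx W} {kd : W → ℕ} {τ : W → T}

/-- the property of the closed walks of length at most `K` in the links of the quotient -/
def CLK (K : ℕ) (X : Cpx W) (N : Subgroup P) : Prop :=
  ∀ (x : W) (n : P), n ∈ N → n • x = x → ∀ (k : ℕ) (y : ℕ → W), k ≤ K →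
    (∀ i, i < k → X.Tri x (y i) (y (i + 1))) → y k = n • y 0 → ∃ i, i ≤ k ∧ n • y i = y i

/-- the choice of the exponent -/
theorem exists_MK (K : ℕ) (hX : X.Inv P) (hcc : X.Cocompact P) (h : P →* Multiplicative ℤ)
    (hh : StabInj W h) : ∃ M : ℕ, 0 < M ∧ CLK K X (NM W h M) ∧ FullP X (NM W h M) := by
  obtain ⟨M₁, hM₁, h1⟩ := exists_M1 hcc h hh
  have hfin := (Set.finite_le_nat K).biUnion fun k _ => finite_vals hX hcc h k
  obtain ⟨B, hB⟩ := (hfin.image Int.natAbs).bddAbove
  refine ⟨M₁ * (B + 1), by positivity, ?_, ?_⟩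
  swap
  · intro x y he g hg hgx hgy hg1 g' hg' hgx'
    obtain ⟨e, h3, h4, h5⟩ := h1 x y he (fun hr => hg1 (hr g hgx hgy))
    refine fix_of_dvd h hh h3 h4 hgx' (h5.trans (dvd_trans ?_ (dvd_of_mem h _ hg')))
    push_cast
    exact dvd_mul_right _ _
  intro x n hn hx k y hk ht hy
  by_contra hcon
  push Not at hcon
  have hd := dvd_of_mem h _ hn
  have hn1 : n ≠ 1 := fun h2 => hcon 0 (by omega) (by rw [h2, one_smul])
  have hedge : ∀ i, i ≤ k → 0 < k → X.Edge x (y i) := by
    intro i hi hk0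
    rcases Nat.lt_or_ge i k with h2 | h2
    · exact X.edge _ _ _ (ht i h2)
    · have h3 : i = (k - 1) + 1 := by omega
      rw [h3]
      exact X.symm _ _ (X.edge _ _ _ (X.rot _ _ _ (X.rot _ _ _ (ht (k - 1) (by omega)))))
  have hk0 : 0 < k := by
    rcases Nat.eq_zero_or_pos k with h2 | h2
    · subst h2
      exact absurd hy.symm (hcon 0 le_rfl)
    · exact h2
  have hreg : ∀ i, i ≤ k → Reg P x (y i) := by
    intro i hi
    by_contra hr
    obtain ⟨e, h3, h4, h5⟩ := h1 x (y i) (hedge i hi hk0) hr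
    have h6 : Multiplicative.toAdd (h e) ∣ Multiplicative.toAdd (h n) := by
      refine h5.trans (dvd_trans ?_ hd)
      push_cast
      exact dvd_mul_right _ _
    exact hcon i hi (fix_of_dvd h hh h3 h4 hx h6)
  have h2 : Int.natAbs (Multiplicative.toAdd (h n)) ≤ B := by
    refine hB ⟨_, Set.mem_biUnion (x := k) (by exact hk) ⟨x, n, y, hx, hreg, hedge 0 (by omega) hk0,
      ht, hy, rfl⟩, rfl⟩
  have h3 : Multiplicative.toAdd (h n) = 0 := by
    refine Int.eq_zero_of_abs_lt_dvd hd ?_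
    rw [Int.abs_eq_natAbs]
    have h4 : B < M₁ * (B + 1) := by nlinarith
    exact_mod_cast lt_of_le_of_lt h2 h4
  exact hn1 (hh x n hx (Multiplicative.toAdd.injective h3))

/-- the finite sequence -/
def sq (l : List W) (d : W) : ℕ → W := fun i => l.getD i d

/-- the closing property of the typed complex -/
theorem cl_of (ha : H59.DE.TAct X kd τ P) {N : Subgroup P} (h : CLK 8 X N) :
    H59.DE.CL X kd N := by
  have h0 : ∀ (n : N) (g : W), kd g = 0 → n • g = g → n = 1 := fun n g hg e =>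
    Subtype.ext (ha.free (n : P) g hg e)
  have hs : ∀ {a b p : W}, X.Tri a b p → X.Tri p a b := fun h => X.rot _ _ _ (X.rot _ _ _ h)
  have hs' : ∀ {a b p : W}, X.Tri a b p → X.Tri p b a := fun h =>
    X.rot _ _ _ (X.rot _ _ _ (X.swap _ _ _ h))
  constructor
  · intro n p e e₁ g₁ g₂ _ _ _ hg₁ hg₂ hn t1 t2 t3 t4
    obtain ⟨i, hi, h1⟩ := h p n n.2 hn 4 (sq [e, g₁, e₁, g₂, n • e] p) (by norm_num) (by
      intro i hi
      interval_cases i
      · exact hs' t1
      · exact hs t2
      · exact hs' t3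
      · exact hs t4) rfl
    interval_cases i
    · exact Or.inl h1
    · left; rw [h0 n _ hg₁ h1, one_smul]
    · exact Or.inr h1
    · left; rw [h0 n _ hg₂ h1, one_smul]
    · exact Or.inl (smul_left_cancel (n : P) h1)
  · intro n p e e₁ e₂ e₃ g₁ g₂ g₃ g₄ _ _ _ _ _ hg₁ hg₂ hg₃ hg₄ hn t1 t2 t3 t4 t5 t6 t7 t8
    obtain ⟨i, hi, h1⟩ := h p n n.2 hn 8 (sq [e, g₁, e₁, g₂, e₂, g₃, e₃, g₄, n • e] p)
      (by norm_num) (by
      intro i hi
      interval_cases i
      · exact hs' t1
      · exact hs t2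
      · exact hs' t3
      · exact hs t4
      · exact hs' t5
      · exact hs t6
      · exact hs' t7
      · exact hs t8) rfl
    interval_cases i
    · exact Or.inl h1
    · left; rw [h0 n _ hg₁ h1, one_smul]
    · exact Or.inr (Or.inl h1)
    · left; rw [h0 n _ hg₂ h1, one_smul]
    · exact Or.inr (Or.inr (Or.inl h1))
    · left; rw [h0 n _ hg₃ h1, one_smul]
    · exact Or.inr (Or.inr (Or.inr h1))
    · left; rw [h0 n _ hg₄ h1, one_smul]
    · exact Or.inl (smul_left_cancel (n : P) h1)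

theorem full_of (hT : H59.DE.TC X kd τ) (ha : H59.DE.TAct X kd τ P) {N : Subgroup P}
    (h : FullP X N) : H59.DE.Full X kd N := by
  intro e p n he hp hep hn1 hne n' hn'
  have hnp : (n : P) • p = p := by
    obtain ⟨g, hg, hge⟩ := hT.cell e p he hp hep
    have h1 := hT.fill g e p hg he hp hge hep
    have h2 : X.Edge e ((n : P) • p) := by
      have := ha.inv.edge (n : P) _ _ hep
      have hne' : (n : P) • e = e := hne
      rwa [hne'] at this
    have h3 : kd ((n : P) • p) = 2 := by rw [hT.kd_τ _ _ (ha.type (n : P) p), hp]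
    exact hT.inj g _ _ hg (third (hT.fill g e _ hg he h3 hge h2)) (third h1) (ha.type _ _)
  exact h p e (X.symm _ _ hep) n n.2 hnp hne (fun h => hn1 (Subtype.ext h)) n' n'.2 hn'

end Pool.Agent.H54.AR
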