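import Pool.Agent.H54.AR.TqAct

/-!
# Saturated subcomplexes of typed complexes and their covers are typed complexes
-/

set_option autoImplicit false

namespace Pool.Agent.H54.AR

open Pool.Agent.H98.FJ Pool.Agent.H54.CX Pool.Agent.H54.CX.CV Pool.Agent.H54.DD Cls

variable {G W T : Type} [Group G] [MulAction G W] {X : Cpx W} {kd : W → ℕ} {τ : W → T}

/-- a simply connected typed complex with an action -/
structure TA (G : Type) [Group G] {W T : Type} [MulAction G W] (X : Cpx W) (kd : W → ℕ)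
    (τ : W → T) : Prop where
  tc : H59.DE.TC X kd τ
  sc : X.SC
  act : H59.DE.TAct X kd τ G

theorem TA.sub (h : TA G X kd τ) (K : Subgroup G) : TA K X kd τ where
  tc := h.tc
  sc := h.sc
  act :=
    { inv :=
        { edge := fun g a b e => h.act.inv.edge (g : G) a b e
          tri := fun g a b c e => h.act.inv.tri (g : G) a b c e
          len := fun g a b e => h.act.inv.len (g : G) a b e }
      type := fun g x => h.act.type (g : G) x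
      free := fun g c hc e => Subtype.ext (h.act.free (g : G) c hc e) }

/-- the cells of `D` and their neighbours -/
def sat (X : Cpx W) (kd : W → ℕ) (D : Set W) : Set W :=
  {x | ∃ c ∈ D, kd c = 0 ∧ (c = x ∨ X.Edge c x)}

theorem sat_mono {D D' : Set W} (h : D ⊆ D') : sat X kd D ⊆ sat X kd D' := by
  rintro x ⟨c, hc, h1, h2⟩
  exact ⟨c, h hc, h1, h2⟩

theorem sat_finite (hf : H59.DE.FinCell X kd) {D : Set W} (hD : D.Finite) :
    (sat X kd D).Finite := by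
  have : sat X kd D ⊆ ⋃ c ∈ {c | c ∈ D ∧ kd c = 0}, ({c} ∪ {x | X.Edge c x}) := by
    rintro x ⟨c, hc, h1, h2⟩
    refine Set.mem_biUnion (x := c) ⟨hc, h1⟩ ?_
    rcases h2 with h2 | h2
    · exact Or.inl h2.symm
    · exact Or.inr h2
  refine (Set.Finite.biUnion (hD.subset fun c hc => hc.1) ?_).subset this
  intro c hc
  exact (Set.finite_singleton c).union (hf c hc.2)

section sub

variable (hT : H59.DE.TC X kd τ) (ha : H59.DE.TAct X kd τ G) {D : Set W}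
include hT ha

/-- a translate of the cell is in the set -/
theorem sat_cell {c x : W} (hc : kd c = 0) {g : G} (h : g • c ∈ sat X kd D) (hx : X.Edge c x) :
    g • x ∈ sat X kd D := by
  obtain ⟨d, hd, h1, h2⟩ := h
  rcases h2 with h2 | h2
  · exact ⟨d, hd, h1, Or.inr (by rw [h2]; exact ha.inv.edge g _ _ hx)⟩
  · have h3 := hT.kd_ne _ _ h2
    rw [hT.kd_τ _ _ (ha.type g c)] at h3
    omega

theorem sub_edge {c x y : W} (hc : kd c = 0) (h : (CX.sub X G (sat X kd D)).Edge c y)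
    (hx : X.Edge c x) : (CX.sub X G (sat X kd D)).Edge c x := by
  obtain ⟨-, g, h1, -⟩ := h
  exact ⟨hx, g, h1, sat_cell hT ha hc h1 hx⟩

theorem sub_tri {c x y z : W} (hc : kd c = 0) (h : (CX.sub X G (sat X kd D)).Edge c z)
    (hx : X.Tri c x y) : (CX.sub X G (sat X kd D)).Tri c x y := by
  obtain ⟨-, g, h1, -⟩ := h
  exact ⟨hx, g, h1, sat_cell hT ha hc h1 (X.edge _ _ _ hx), sat_cell hT ha hc h1 (third hx)⟩

theorem sub_tc : H59.DE.TC (CX.sub X G (sat X kd D)) kd τ where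
  kd_le := hT.kd_le
  kd_ne x y h := hT.kd_ne x y h.1
  kd_τ := hT.kd_τ
  len x y h := hT.len x y h.1
  fill g e p hg he hp h1 h2 := sub_tri hT ha hg h1 (hT.fill g e p hg he hp h1.1 h2.1)
  cell e p he hp h := by
    obtain ⟨h1, g, h2, h3⟩ := h
    obtain ⟨d, hd, hd0, h4⟩ := h2
    have hk : kd (g • e) = 1 := by rw [hT.kd_τ _ _ (ha.type g e), he]
    rcases h4 with h4 | h4
    · rw [h4] at hd0; omega
    · refine ⟨g⁻¹ • d, by rw [hT.kd_τ _ _ (ha.type g⁻¹ d), hd0], ?_, g, ?_, ?_⟩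
      · have := ha.inv.edge g⁻¹ _ _ h4
        rwa [inv_smul_smul] at this
      · rw [smul_inv_smul]; exact ⟨d, hd, hd0, Or.inl rfl⟩
      · exact ⟨d, hd, hd0, Or.inr h4⟩
  inj g x y hg h1 h2 h := hT.inj g x y hg h1.1 h2.1 h
  two g p hg hp h := by
    obtain ⟨e, e', h1, h2, h3, h4, h5, h6⟩ := hT.two g p hg hp h.1
    exact ⟨e, e', h1, h2, h3, sub_tri hT ha hg h h4, sub_tri hT ha hg h h5,
      fun x hx => h6 x hx.1⟩
  pts g e hg he h := by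
    obtain ⟨p, q, h1, h2, h3, h4, h5⟩ := hT.pts g e hg he h.1
    exact ⟨p, q, h1, h2, h3, sub_tri hT ha hg h h4, sub_tri hT ha hg h h5⟩
  lg g e e' p q hg he he' hp hq hne h1 h2 h3 h4 :=
    hT.lg g e e' p q hg he he' hp hq hne h1.1 h2.1 h3.1 h4.1
  bip p e e' e'' hp he he' he'' h1 h2 h3 := hT.bip p e e' e'' hp he he' he'' h1.1 h2.1 h3.1
  l2 p e e' g g' hp he he' hg hg' hne h1 h2 h3 h4 :=
    hT.l2 p e e' g g' hp he he' hg hg' hne h1.1 h2.1 h3.1 h4.1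
  l4 p e₁ e₂ e₃ e₄ g₁ g₂ g₃ g₄ hp he₁ he₂ he₃ he₄ hg₁ hg₂ hg₃ hg₄ h1 h2 h3 h4 h5 h6 h7 h8 :=
    hT.l4 p e₁ e₂ e₃ e₄ g₁ g₂ g₃ g₄ hp he₁ he₂ he₃ he₄ hg₁ hg₂ hg₃ hg₄ h1.1 h2.1 h3.1 h4.1 h5.1
      h6.1 h7.1 h8.1

end sub

section cov

/-- the neighbours in the cover are determined by their ends -/
theorem cov_uniq {Y : Cpx W} {x₀ : W} {p q r : CV Y x₀} (h : (cov Y x₀).Edge p q)
    (h' : (cov Y x₀).Edge p r) (e : en q = en r) : q = r :=
  CV.ext (by rw [h.2, h'.2, e])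

theorem cov_lift {Y : Cpx W} {x₀ : W} (p : CV Y x₀) {b : W} (h : Y.Edge (en p) b) :
    ∃ q : CV Y x₀, en q = b ∧ (cov Y x₀).Edge p q := by
  have h' : Y.Near (en p) b := Or.inr h
  refine ⟨nx p b h', en_nx _ _ _, ?_, ?_⟩
  · rw [en_nx]; exact h
  · rw [en_nx, nx_val]

theorem cov_lift_tri {Y : Cpx W} {x₀ : W} {p q : CV Y x₀} (hpq : (cov Y x₀).Edge p q) {c : W}
    (h : Y.Tri (en p) (en q) c) : ∃ r : CV Y x₀, en r = c ∧ (cov Y x₀).Tri p q r := by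
  obtain ⟨r, hr, h1⟩ := cov_lift p (third h)
  refine ⟨r, hr, ?_, hpq.2, h1.2⟩
  rw [hr]; exact h

theorem cov_tri_iff {Y : Cpx W} {x₀ : W} {p q r : CV Y x₀} (hpq : (cov Y x₀).Edge p q)
    (hqr : (cov Y x₀).Edge q r) (h : Y.Tri (en p) (en q) (en r)) : (cov Y x₀).Tri p q r := by
  refine ⟨h, hpq.2, ?_⟩
  rw [hqr.2, hpq.2]
  have := Cls.tri h
  rw [← mul_en p, mul_assoc, mul_assoc, mul_assoc, ← mul_assoc (pt Y (en p)), this]

theorem cov_tc {Y : Cpx W} (hT : H59.DE.TC Y kd τ) (x₀ : W) :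
    H59.DE.TC (cov Y x₀) (fun p => kd (en p)) (fun p => τ (en p)) where
  kd_le _ := hT.kd_le _
  kd_ne _ _ h := hT.kd_ne _ _ h.1
  kd_τ _ _ h := hT.kd_τ _ _ h
  len _ _ h := hT.len _ _ h.1
  fill _ _ _ hg he hp h1 h2 := cov_tri_iff h1 h2 (hT.fill _ _ _ hg he hp h1.1 h2.1)
  cell e p he hp h := by
    obtain ⟨g, hg, h1⟩ := hT.cell _ _ he hp h.1
    obtain ⟨g', hg', h2⟩ := cov_lift e (Y.symm _ _ h1)
    exact ⟨g', by rw [hg']; exact hg, (cov Y x₀).symm _ _ h2⟩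
  inj g x y hg h1 h2 h := cov_uniq h1 h2 (hT.inj _ _ _ hg h1.1 h2.1 h)
  two g p hg hp h := by
    obtain ⟨e, e', h1, h2, h3, h4, h5, h6⟩ := hT.two _ _ hg hp h.1
    obtain ⟨e1, he1, k1⟩ := cov_lift_tri h (Y.swap _ _ _ (Y.rot _ _ _ (Y.rot _ _ _ h4)))
    obtain ⟨e2, he2, k2⟩ := cov_lift_tri h (Y.swap _ _ _ (Y.rot _ _ _ (Y.rot _ _ _ h5)))
    have hr : ∀ {a b c : CV Y x₀}, (cov Y x₀).Tri a b c → (cov Y x₀).Tri a c b := fun h =>
      (cov Y x₀).swap _ _ _ ((cov Y x₀).rot _ _ _ ((cov Y x₀).rot _ _ _ h))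
    refine ⟨e1, e2, fun h => h1 (by rw [← he1, ← he2, h]), by rw [he1]; exact h2,
      by rw [he2]; exact h3, hr k1, hr k2, ?_⟩
    intro x hx
    rcases h6 _ hx.1 with h7 | h7
    · exact Or.inl (cov_uniq ((cov Y x₀).edge _ _ _ hx) ((cov Y x₀).edge _ _ _ (hr k1))
        (by rw [h7, he1]))
    · exact Or.inr (cov_uniq ((cov Y x₀).edge _ _ _ hx) ((cov Y x₀).edge _ _ _ (hr k2))
        (by rw [h7, he2]))
  pts g e hg he h := by
    obtain ⟨p, q, h1, h2, h3, h4, h5⟩ := hT.pts _ _ hg he h.1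
    obtain ⟨p1, hp1, k1⟩ := cov_lift_tri h h4
    obtain ⟨q1, hq1, k2⟩ := cov_lift_tri h h5
    exact ⟨p1, q1, fun h => h1 (by rw [← hp1, ← hq1, h]), by rw [hp1]; exact h2,
      by rw [hq1]; exact h3, k1, k2⟩
  lg g e e' p q hg he he' hp hq hne h1 h2 h3 h4 := by
    refine cov_uniq (third h1) (third h3) ?_
    refine hT.lg _ _ _ _ _ hg he he' hp hq ?_ h1.1 h2.1 h3.1 h4.1
    intro e
    exact hne (cov_uniq ((cov Y x₀).edge _ _ _ h1) ((cov Y x₀).edge _ _ _ h2) e)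
  bip p e e' e'' hp he he' he'' h1 h2 h3 := hT.bip _ _ _ _ hp he he' he'' h1.1 h2.1 h3.1
  l2 p e e' g g' hp he he' hg hg' hne h1 h2 h3 h4 := by
    have hr : ∀ {a b : CV Y x₀}, (cov Y x₀).Tri a b p → (cov Y x₀).Edge p a := fun h =>
      (cov Y x₀).edge _ _ _ ((cov Y x₀).rot _ _ _ ((cov Y x₀).rot _ _ _ h))
    have hr' : ∀ {a b : CV Y x₀}, (cov Y x₀).Tri a b p → (cov Y x₀).Edge p b := fun h =>
      (cov Y x₀).symm _ _ (mid h)
    refine cov_uniq (hr h1) (hr h3) ?_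
    refine hT.l2 _ _ _ _ _ hp he he' hg hg' ?_ h1.1 h2.1 h3.1 h4.1
    intro e
    exact hne (cov_uniq (hr' h1) (hr' h2) e)
  l4 p e₁ e₂ e₃ e₄ g₁ g₂ g₃ g₄ hp he₁ he₂ he₃ he₄ hg₁ hg₂ hg₃ hg₄ h1 h2 h3 h4 h5 h6 h7 h8 n1 n2
      n3 n4 := by
    have hr' : ∀ {a b : CV Y x₀}, (cov Y x₀).Tri a b p → (cov Y x₀).Edge p b := fun h =>
      (cov Y x₀).symm _ _ (mid h)
    have hu : ∀ {a b a' b' : CV Y x₀}, (cov Y x₀).Tri a b p → (cov Y x₀).Tri a' b' p → b ≠ b' →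
        en b ≠ en b' := fun h h' hne e => hne (cov_uniq (hr' h) (hr' h') e)
    rcases hT.l4 _ _ _ _ _ _ _ _ _ hp he₁ he₂ he₃ he₄ hg₁ hg₂ hg₃ hg₄ h1.1 h2.1 h3.1 h4.1 h5.1
      h6.1 h7.1 h8.1 (hu h1 h2 n1) (hu h2 h4 n2) (hu h4 h6 n3) (hu h6 h1 n4) with h | h
    · exact Or.inl (cov_uniq (hr' h1) (hr' h4) h)
    · exact Or.inr (cov_uniq (hr' h2) (hr' h6) h)

theorem cov_tact {Y : Cpx W} (ha : H59.DE.TAct Y kd τ G) (x₀ : W) :
    H59.DE.TAct (cov Y x₀) (fun p => kd (en p)) (fun p => τ (en p)) (Gam Y G ha.inv x₀) where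
  inv := cov_inv _ _
  type g p := by
    show τ (en (g • p)) = τ (en p)
    rw [en_smul, ha.type]
  free g p hp h := by
    have h1 : g.g • en p = en p := by rw [← en_smul, h]
    exact stab_inj (p := p) h (one_smul _ p) (ha.free _ _ hp h1)

end cov

end Pool.Agent.H54.AR
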