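import Pool.Agent.H59.DE.Defs
import Pool.Agent.H54.DD.QuoAct

/-!
# Quotients of typed complexes
-/

set_option autoImplicit false

namespace Pool.Agent.H54.AR

open Pool.Agent.H98.FJ Pool.Agent.H54.CX Pool.Agent.H93.TR Pool.Agent.H54.DD

variable {P W T : Type} [Group P] [MulAction P W] {X : Cpx W} {kd : W → ℕ} {τ : W → T}

section basic

variable (hT : H59.DE.TC X kd τ)
include hT

/-- the kinds of the vertices of a triangle are different -/
theorem tri_kd {a b c : W} (h : X.Tri a b c) : kd a ≠ kd b ∧ kd b ≠ kd c ∧ kd a ≠ kd c :=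
  ⟨hT.kd_ne _ _ (X.edge _ _ _ h), hT.kd_ne _ _ (X.edge _ _ _ (X.rot _ _ _ h)),
    (hT.kd_ne _ _ (X.edge _ _ _ (X.rot _ _ _ (X.rot _ _ _ h)))).symm⟩

/-- an edge is an edge of a triangle with a cell -/
theorem exists_cell {a b : W} (h : X.Edge a b) :
    ∃ c, kd c = 0 ∧ (c = a ∨ X.Edge c a) ∧ (c = b ∨ X.Edge c b) := by
  have h1 := hT.kd_ne _ _ h
  have h2 := hT.kd_le a
  have h3 := hT.kd_le b
  by_cases h4 : kd a = 0
  · exact ⟨a, h4, Or.inl rfl, Or.inr h⟩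
  by_cases h5 : kd b = 0
  · exact ⟨b, h5, Or.inr (X.symm _ _ h), Or.inl rfl⟩
  rcases (by omega : (kd a = 1 ∧ kd b = 2) ∨ (kd a = 2 ∧ kd b = 1)) with ⟨h6, h7⟩ | ⟨h6, h7⟩
  · obtain ⟨c, hc, hca⟩ := hT.cell a b h6 h7 h
    have h8 := hT.fill c a b hc h6 h7 hca h
    exact ⟨c, hc, Or.inr hca, Or.inr (X.symm _ _ (X.edge _ _ _ (X.rot _ _ _ (X.rot _ _ _ h8))))⟩
  · obtain ⟨c, hc, hcb⟩ := hT.cell b a h7 h6 (X.symm _ _ h)
    have h8 := hT.fill c b a hc h7 h6 hcb (X.symm _ _ h)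
    exact ⟨c, hc, Or.inr (X.symm _ _ (X.edge _ _ _ (X.rot _ _ _ (X.rot _ _ _ h8)))), Or.inr hcb⟩

/-- neighbours of the same type of a vertex which is not a cell, with a common cell -/
theorem cell_uniq {g x y : W} (hg : kd g = 0) (hx : X.Edge g x) (hy : X.Edge g y)
    (h : τ x = τ y) : x = y := hT.inj g x y hg hx hy h

end basic

/-- the quotients of typed complexes are simplicial -/
theorem simple (hT : H59.DE.TC X kd τ) (ha : H59.DE.TAct X kd τ P) (N : Subgroup P) :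
    Simple X N := by
  constructor
  · intro a b h n _ e
    have h1 := hT.kd_ne _ _ h
    have h2 := hT.kd_τ _ _ (ha.type n a)
    rw [e] at h2
    exact h1 h2.symm
  · intro x a b hxa hxb n hn e
    have hτ : τ a = τ b := by rw [← e, ha.type]
    have hkd : kd a = kd b := hT.kd_τ _ _ hτ
    have hkx : kd (n • x) = kd x := hT.kd_τ _ _ (ha.type n x)
    have hka := hT.kd_ne _ _ hxa
    have hlx := hT.kd_le x
    have hla := hT.kd_le a
    have hnx : X.Edge (n • x) b := by rw [← e]; exact ha.inv.edge n _ _ hxa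
    by_cases hx0 : kd x = 0
    · exact ⟨1, N.one_mem, one_smul _ _, by rw [one_smul]; exact hT.inj x a b hx0 hxa hxb hτ⟩
    by_cases ha0 : kd a = 0
    · exact ⟨n, hn, hT.inj b _ _ (by rw [← hkd, ha0]) (X.symm _ _ hnx) (X.symm _ _ hxb)
        (ha.type n x), e⟩
    rcases (by omega : (kd x = 1 ∧ kd a = 2) ∨ (kd x = 2 ∧ kd a = 1)) with ⟨h6, h7⟩ | ⟨h6, h7⟩
    · obtain ⟨c, hc, hcx⟩ := hT.cell x a h6 h7 hxa
      have h8 := hT.fill c x a hc h6 h7 hcx hxa
      have h9 := hT.fill c x b hc h6 (by rw [← hkd, h7]) hcx hxb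
      refine ⟨1, N.one_mem, one_smul _ _, ?_⟩
      rw [one_smul]
      exact hT.inj c a b hc (X.symm _ _ (X.edge _ _ _ (X.rot _ _ _ (X.rot _ _ _ h8))))
        (X.symm _ _ (X.edge _ _ _ (X.rot _ _ _ (X.rot _ _ _ h9)))) hτ
    · obtain ⟨c, hc, hcb⟩ := hT.cell b x (by rw [← hkd, h7]) h6 (X.symm _ _ hxb)
      have h8 := hT.fill c b x hc (by rw [← hkd, h7]) h6 hcb (X.symm _ _ hxb)
      have h9 := hT.fill c b (n • x) hc (by rw [← hkd, h7]) (by rw [hkx, h6]) hcb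
        (X.symm _ _ hnx)
      exact ⟨n, hn, hT.inj c _ _ hc (X.symm _ _ (X.edge _ _ _ (X.rot _ _ _ (X.rot _ _ _ h9))))
        (X.symm _ _ (X.edge _ _ _ (X.rot _ _ _ (X.rot _ _ _ h8)))) (ha.type n x), e⟩

/-- a function on the orbits -/
def dsc {A : Type} (N : Subgroup P) (f : W → A) (hf : ∀ (g : P) x, f (g • x) = f x) :
    Orb N W → A :=
  Quotient.lift f (by
    rintro a b ⟨⟨n, hn⟩, h⟩
    rw [← h]
    exact hf n b)

theorem dsc_orb {A : Type} (N : Subgroup P) (f : W → A) (hf : ∀ (g : P) x, f (g • x) = f x)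
    (x : W) : dsc N f hf (orb N x) = f x := rfl

theorem L_symm (a b : ℕ) : H59.DE.L a b = H59.DE.L b a := by
  unfold H59.DE.L
  split <;> split <;> simp_all

theorem L_pos (a b : ℕ) : 0 < H59.DE.L a b := by
  unfold H59.DE.L
  split <;> positivity

theorem L_lt {a b c : ℕ} (ha : a ≤ 2) (hb : b ≤ 2) (hc : c ≤ 2) (h1 : a ≠ b) (h2 : b ≠ c)
    (h3 : a ≠ c) : H59.DE.L a c < H59.DE.L a b + H59.DE.L b c := by
  have h4 : (1 : ℝ) < Real.sqrt 3 := by
    rw [show (1 : ℝ) = Real.sqrt 1 by simp]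
    exact Real.sqrt_lt_sqrt (by norm_num) (by norm_num)
  have h5 : Real.sqrt 3 < 2 := by
    rw [Real.sqrt_lt' (by norm_num)]
    norm_num
  interval_cases a <;> interval_cases b <;> interval_cases c <;>
    simp_all [H59.DE.L] <;> linarith

/-- the quotient of a typed complex -/
noncomputable def tquo (hT : H59.DE.TC X kd τ) (ha : H59.DE.TAct X kd τ P) (N : Subgroup P) :
    Cpx (Orb N W) where
  Edge i j := ∃ a b, orb N a = i ∧ orb N b = j ∧ X.Edge a b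
  Tri i j k := ∃ a b c, orb N a = i ∧ orb N b = j ∧ orb N c = k ∧ X.Tri a b c
  len i j := H59.DE.L (dsc N kd (fun g x => hT.kd_τ _ _ (ha.type g x)) i)
    (dsc N kd (fun g x => hT.kd_τ _ _ (ha.type g x)) j)
  ne := by
    rintro i j ⟨a, b, rfl, rfl, h⟩ e
    obtain ⟨n, hn, hn'⟩ := (orb_eq_iff N _ _).1 e
    exact (simple hT ha N).loop _ _ (X.symm _ _ h) n hn hn'
  symm := by
    rintro i j ⟨a, b, ha, hb, h⟩
    exact ⟨b, a, hb, ha, X.symm _ _ h⟩
  edge := by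
    rintro i j k ⟨a, b, c, ha, hb, hc, h⟩
    exact ⟨a, b, ha, hb, X.edge _ _ _ h⟩
  rot := by
    rintro i j k ⟨a, b, c, ha, hb, hc, h⟩
    exact ⟨b, c, a, hb, hc, ha, X.rot _ _ _ h⟩
  swap := by
    rintro i j k ⟨a, b, c, ha, hb, hc, h⟩
    exact ⟨b, a, c, hb, ha, hc, X.swap _ _ _ h⟩
  len_symm := fun _ _ _ => L_symm _ _
  pos := fun _ _ _ => L_pos _ _
  lt := by
    rintro i j k ⟨a, b, c, rfl, rfl, rfl, h⟩
    obtain ⟨h1, h2, h3⟩ := tri_kd hT h
    exact L_lt (hT.kd_le _) (hT.kd_le _) (hT.kd_le _) h1 h2 h3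

variable {N : Subgroup P} {hT : H59.DE.TC X kd τ} {ha : H59.DE.TAct X kd τ P}

/-- edges of the quotient lift, with a given first vertex -/
theorem edge_lift {a : W} {j : Orb N W} (h : (tquo hT ha N).Edge (orb N a) j) :
    ∃ b, orb N b = j ∧ X.Edge a b := by
  obtain ⟨c, d, hc, hd, h⟩ := h
  obtain ⟨n, hn, hn'⟩ := (orb_eq_iff N a c).1 hc.symm
  refine ⟨n • d, by rw [orb_smul N hn, hd], ?_⟩
  rw [← hn']
  exact ha.inv.edge n _ _ h

/-- triangles of the quotient lift, with a given first edge -/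
theorem tri_lift {a b : W} {k : Orb N W} (hab : X.Edge a b)
    (h : (tquo hT ha N).Tri (orb N a) (orb N b) k) : ∃ c, orb N c = k ∧ X.Tri a b c := by
  obtain ⟨a', b', c', ha', hb, hc, h⟩ := h
  obtain ⟨n, hn, hn'⟩ := (orb_eq_iff N a a').1 ha'.symm
  have h1 : X.Tri a (n • b') (n • c') := by rw [← hn']; exact ha.inv.tri n _ _ _ h
  obtain ⟨m, hm, hm'⟩ := (orb_eq_iff N b (n • b')).1 (by rw [orb_smul N hn, hb])
  obtain ⟨k, hk, hk1, hk2⟩ := (simple hT ha N).double a (n • b') b (X.edge _ _ _ h1) hab m hm hm'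
  refine ⟨k • n • c', by rw [orb_smul N hk, orb_smul N hn, hc], ?_⟩
  have h2 := ha.inv.tri k _ _ _ h1
  rwa [hk1, hk2] at h2

end Pool.Agent.H54.AR
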