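import Pool.Agent.H98.FJ.Closed

/-!
# General linear groups over rings of integers

If `GL_n(ℤ)` is in the class for all `n` then so is `GL_n(R)` for every commutative ring `R` which is a free `ℤ`-module of
finite rank; in particular for the ring generated by finitely many numbers `2 cos (π / m)`.
-/

set_option autoImplicit false

namespace Pool.Agent.H54.AR

open Pool.Agent.H98.FJ

variable {C : (G : Type) → [Group G] → Prop}

/-- restriction of scalars -/
def resZ (K : Type) [CommRing K] (V : Type) [AddCommGroup V] [Module K V] :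
    Module.End K V →* Module.End ℤ V where
  toFun f := f.restrictScalars ℤ
  map_one' := rfl
  map_mul' _ _ := rfl

theorem resZ_inj (K : Type) [CommRing K] (V : Type) [AddCommGroup V] [Module K V] :
    Function.Injective (resZ K V) :=
  LinearMap.restrictScalars_injective ℤ

theorem units_map_inj' {M N : Type} [Monoid M] [Monoid N] (f : M →* N)
    (hf : Function.Injective f) : Function.Injective (Units.map f) := by
  intro x y h
  apply Units.ext
  apply hf
  have := congrArg Units.val h
  simpa using this

theorem gl_of_free (hC : Inherits C) (hGL : ∀ n : ℕ, C (GL (Fin n) ℤ)) (K : Type) [CommRing K]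
    [Module.Free ℤ K] [Module.Finite ℤ K] (ι : Type) [Fintype ι] [DecidableEq ι] :
    C (GL ι K) := by
  let V := ι → K
  let b := Module.finBasis ℤ V
  let e1 : Matrix ι ι K →* Module.End K V := (Matrix.toLinAlgEquiv' : Matrix ι ι K ≃ₐ[K] _).toAlgHom
  have h1 : Function.Injective e1 := (Matrix.toLinAlgEquiv' : Matrix ι ι K ≃ₐ[K] _).injective
  let e2 : Module.End ℤ V →* Matrix (Fin (Module.finrank ℤ V)) (Fin (Module.finrank ℤ V)) ℤ :=
    (LinearMap.toMatrixAlgEquiv b).toAlgHom
  have h2 : Function.Injective e2 := (LinearMap.toMatrixAlgEquiv b).injective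
  refine hC.of_injective (H := GL (Fin (Module.finrank ℤ V)) ℤ)
    (Units.map (e2.comp ((resZ K V).comp e1))) ?_ (hGL _)
  exact units_map_inj' _ (h2.comp ((resZ_inj K V).comp h1))

/-- the ring generated by finitely many numbers `2 cos (π / m)` -/
noncomputable def cosRing (F : Finset ℕ) : Subalgebra ℤ ℝ :=
  Algebra.adjoin ℤ ((fun m : ℕ => 2 * Real.cos (Real.pi / m)) '' (F : Set ℕ))

theorem mem_cosRing {F : Finset ℕ} {m : ℕ} (h : m ∈ F) :
    2 * Real.cos (Real.pi / m) ∈ cosRing F :=
  Algebra.subset_adjoin ⟨m, h, rfl⟩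

instance cosRing_finite (F : Finset ℕ) : Module.Finite ℤ (cosRing F) := by
  have hfin : ((fun m : ℕ => 2 * Real.cos (Real.pi / m)) '' (F : Set ℕ)).Finite :=
    (Finset.finite_toSet F).image _
  have h := fg_adjoin_of_finite (R := ℤ) hfin (by
    rintro _ ⟨m, -, rfl⟩
    have h1 := Real.isIntegral_two_mul_cos_rat_mul_pi (1 / m : ℚ)
    have h2 : 2 * Real.cos (Real.pi / m) = 2 * Real.cos (((1 / m : ℚ) : ℝ) * Real.pi) := by
      push_cast
      congr 2
      ring
    rw [← h2] at h1
    exact h1)
  exact Module.Finite.iff_fg.2 h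

instance cosRing_free (F : Finset ℕ) : Module.Free ℤ (cosRing F) := inferInstance

theorem gl_cosRing (hC : Inherits C) (hGL : ∀ n : ℕ, C (GL (Fin n) ℤ)) (F : Finset ℕ) (ι : Type)
    [Fintype ι] [DecidableEq ι] : C (GL ι (cosRing F)) :=
  gl_of_free hC hGL (cosRing F) ι

end Pool.Agent.H54.AR
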