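import Pool.Agent.H98.FJ.Closed

/-!
# General linear groups over number fields

If `GL_n(ℚ)` is in the class for all `n` then so is `GL_n(K)` for every finite extension `K` of `ℚ`; in particular for the
field generated by finitely many numbers `2 cos (π / m)`.
-/

set_option autoImplicit false

namespace Pool.Agent.H54.AR

open Pool.Agent.H98.FJ

variable {C : (G : Type) → [Group G] → Prop}

/-- restriction of scalars -/
def resQ (K : Type) [Field K] [Algebra ℚ K] (V : Type) [AddCommGroup V] [Module K V] [Module ℚ V]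
    [IsScalarTower ℚ K V] : Module.End K V →* Module.End ℚ V where
  toFun f := f.restrictScalars ℚ
  map_one' := rfl
  map_mul' _ _ := rfl

theorem resQ_inj (K : Type) [Field K] [Algebra ℚ K] (V : Type) [AddCommGroup V] [Module K V]
    [Module ℚ V] [IsScalarTower ℚ K V] : Function.Injective (resQ K V) :=
  LinearMap.restrictScalars_injective ℚ

theorem units_map_inj {M N : Type} [Monoid M] [Monoid N] (f : M →* N)
    (hf : Function.Injective f) : Function.Injective (Units.map f) := by
  intro x y h
  apply Units.ext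
  apply hf
  have := congrArg Units.val h
  simpa using this

theorem gl_of_finite (hC : Inherits C) (hGL : ∀ n : ℕ, C (GL (Fin n) ℚ)) (K : Type) [Field K]
    [Algebra ℚ K] [FiniteDimensional ℚ K] (ι : Type) [Fintype ι] [DecidableEq ι] :
    C (GL ι K) := by
  let V := ι → K
  let b := Module.finBasis ℚ V
  let e1 : Matrix ι ι K →* Module.End K V := (Matrix.toLinAlgEquiv' : Matrix ι ι K ≃ₐ[K] _).toAlgHom
  have h1 : Function.Injective e1 := (Matrix.toLinAlgEquiv' : Matrix ι ι K ≃ₐ[K] _).injective
  let e2 : Module.End ℚ V →* Matrix (Fin (Module.finrank ℚ V)) (Fin (Module.finrank ℚ V)) ℚ :=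
    (LinearMap.toMatrixAlgEquiv b).toAlgHom
  have h2 : Function.Injective e2 := (LinearMap.toMatrixAlgEquiv b).injective
  refine hC.of_injective (H := GL (Fin (Module.finrank ℚ V)) ℚ)
    (Units.map (e2.comp ((resQ K V).comp e1))) ?_ (hGL _)
  exact units_map_inj _ (h2.comp ((resQ_inj K V).comp h1))

/-- the field generated by finitely many numbers `2 cos (π / m)` -/
noncomputable def cosField (F : Finset ℕ) : IntermediateField ℚ ℝ :=
  IntermediateField.adjoin ℚ ((fun m : ℕ => 2 * Real.cos (Real.pi / m)) '' (F : Set ℕ))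

theorem mem_cosField {F : Finset ℕ} {m : ℕ} (h : m ∈ F) :
    2 * Real.cos (Real.pi / m) ∈ cosField F :=
  IntermediateField.subset_adjoin _ _ ⟨m, h, rfl⟩

instance cosField_finite (F : Finset ℕ) : FiniteDimensional ℚ (cosField F) := by
  have hfin : ((fun m : ℕ => 2 * Real.cos (Real.pi / m)) '' (F : Set ℕ)).Finite :=
    (Finset.finite_toSet F).image _
  have := hfin.to_subtype
  refine IntermediateField.finiteDimensional_adjoin ?_
  rintro _ ⟨m, -, rfl⟩
  have h1 := Real.isIntegral_two_mul_cos_rat_mul_pi (1 / m : ℚ)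
  have h2 : 2 * Real.cos (Real.pi / m) = 2 * Real.cos (((1 / m : ℚ) : ℝ) * Real.pi) := by
    push_cast
    congr 2
    ring
  rw [← h2] at h1
  exact h1.tower_top

theorem gl_cosField (hC : Inherits C) (hGL : ∀ n : ℕ, C (GL (Fin n) ℚ)) (F : Finset ℕ) (ι : Type)
    [Fintype ι] [DecidableEq ι] : C (GL ι (cosField F)) :=
  gl_of_finite hC hGL (cosField F) ι

end Pool.Agent.H54.AR
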