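import Pool.Agent.H54.AR.Main
import Pool.Agent.H54.AR.Fin
import Pool.Agent.H54.AR.AxZ
import Pool.Agent.H71.DA.Gir

/-!
# Artin groups of large type: the assembly
-/

set_option autoImplicit false

namespace Pool.Agent.H54.AR

open Pool.Agent.H98.FJ Pool.Agent.H54.CX Pool.Agent.H54.DD Pool.Agent.H52.PAG Pool.Agent.H56.DC
  Pool.Agent.H71.DA

variable {C : (G : Type) → [Group G] → Prop}

section

variable {B : Type} {M : CoxeterMatrix B}

/-- the length -/
def lng (M : CoxeterMatrix B) : Art M →* Multiplicative ℤ :=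
  lift (fun _ => Multiplicative.ofAdd 1) fun _ _ _ => rfl

theorem lng_gen (i : B) : lng M (gen M i) = Multiplicative.ofAdd 1 := lift_gen _ _ _

/-- homomorphisms which are injective on the parabolic subgroups with one and two generators are injective on the
stabilisers -/
theorem stabInj_of {Q : Type} [Group Q] (f : Art M →* Q)
    (h1 : ∀ i, ∀ g ∈ par M {i}, f g = 1 → g = 1)
    (h2 : ∀ i j, i ≠ j → M i j ≠ 0 → ∀ g ∈ par M {i, j}, f g = 1 → g = 1) :
    StabInj (DV M) f := by
  have key : ∀ (H : Subgroup (Art M)) (a g : Art M), (∀ g ∈ H, f g = 1 → g = 1) →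
      (QuotientGroup.mk (g * a) : Art M ⧸ H) = QuotientGroup.mk a → f g = 1 → g = 1 := by
    intro H a g hH h hf
    have h3 : a⁻¹ * g * a ∈ H := by
      have h4 := QuotientGroup.eq.1 h.symm
      rwa [← mul_assoc] at h4
    have h4 : f (a⁻¹ * g * a) = 1 := by
      rw [map_mul, map_mul, hf, mul_one, map_inv, inv_mul_cancel]
    have h5 := hH _ h3 h4
    have := congrArg (fun t => a * t * a⁻¹) h5
    simpa [mul_assoc] using this
  intro v g hv hg
  cases v with
  | ce a =>
    have h3 : DV.ce (g * a) = DV.ce a := hv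
    injection h3 with h3
    exact mul_eq_right.1 h3
  | hy i x =>
    obtain ⟨a, rfl⟩ := QuotientGroup.mk_surjective x
    have h3 : DV.hy i (QuotientGroup.mk (g * a)) = DV.hy i (QuotientGroup.mk a) := hv
    injection h3 with _ h3
    exact key _ a g (h1 i) h3 hg
  | pt T x =>
    obtain ⟨a, rfl⟩ := QuotientGroup.mk_surjective x
    have h3 : DV.pt T (QuotientGroup.mk (g * a)) = DV.pt T (QuotientGroup.mk a) := hv
    injection h3 with _ h3
    refine key _ a g ?_ h3 hg
    obtain ⟨T, i, j, hij, hm, rfl⟩ := T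
    exact h2 i j hij hm

/-- a representation which, together with the length, is injective on the parabolic subgroups with two generators -/
def HasRep (M : CoxeterMatrix B) : Prop :=
  ∃ (ι : Type) (_ : Fintype ι) (_ : DecidableEq ι) (F : Finset ℕ) (f : Art M →* GL ι (cosRing F)),
    ∀ i j, i ≠ j → M i j ≠ 0 → ∀ g ∈ par M {i, j}, f g = 1 → lng M g = 1 → g = 1

theorem lng_inj (i : B) {g : Art M} (hg : g ∈ par M {i}) (h : lng M g = 1) : g = 1 := by
  obtain ⟨k, rfl⟩ := mem_par_singleton.1 hg
  rw [map_zpow, lng_gen, ← ofAdd_zsmul, ofAdd_eq_one, smul_eq_mul, mul_one] at h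
  rw [h, zpow_zero]

theorem mem_of_rep (hC : Inherits C) (hE : Extension C) (h2 : Cat2 C)
    (hGL : ∀ n : ℕ, C (GL (Fin n) ℤ)) [Finite B] (hT : H59.DE.TC (dcx M) DV.ty tp)
    (h : HasRep M) : C (Art M) := by
  obtain ⟨ι, _, _, F, f, hf⟩ := h
  have hQ : C (GL ι (cosRing F) × Multiplicative ℤ) :=
    prod_mem hC (gl_cosRing hC hGL F ι) hC.int
  refine tc_main hC hE h2 hT (dcx_sc M) dcx_tact dcx_fin hQ (f.prod (lng M)) (stabInj_of _ ?_ ?_)
  · intro i g hg h1
    exact lng_inj i hg (congrArg Prod.snd h1)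
  · intro i j hij hm g hg h1
    exact hf i j hij hm g hg (congrArg Prod.fst h1) (congrArg Prod.snd h1)

end

/-- Artin groups of large type -/
theorem large_mem (hC : Inherits C) (hE : Extension C) (h2 : Cat2 C)
    (hGL : ∀ n : ℕ, C (GL (Fin n) ℤ))
    (hrep : ∀ (B : Type) [Finite B] (M : CoxeterMatrix B), Large M → HasRep M) (B : Type)
    (M : CoxeterMatrix B) (hM : ∀ i j, i ≠ j → M i j ≠ 2) : C (Art M) := by
  have hL : Large M := by
    intro i j hij
    have h3 := hM i j hij
    have h4 := M.off_diagonal i j hij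
    rcases Nat.eq_zero_or_pos (M i j) with h5 | h5
    · exact Or.inl h5
    · right
      have h6 : M.M i j = M i j := rfl
      omega
  refine art_mem_of_finite hC M fun S => ?_
  have hS : Large (rst M S) := fun i j hij => hL i.1 j.1 (fun e => hij (Subtype.ext e))
  refine hC.of_injective (extIn (rst M S)) (extIn_injective (rst M S)) ?_
  exact mem_of_rep hC hE h2 hGL (tc_ext hS) (hrep _ _ (large_ext hS))

end Pool.Agent.H54.AR
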